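import Pool.Agent.Helper71.CK.Goals

/-! # The module lemma (packet CK-MODULE of helper71) -/

set_option autoImplicit false

namespace Pool.Agent.Helper81.CK

open Pool.Agent.CK

theorem module_lemma (h1 : S_FS) (h2 : S_GEOM) (h3 : S_CLUSTER) : S_MODULE := by
  intro D i q e hD hi hq hδ
  obtain ⟨hA, hB⟩ := h2 D i q e hD hi hδ
  obtain ⟨-, -, -, -, -, -, -, -, -, -, hmu, hmush, -⟩ := h1
  set κ : ℤ →₀ ℤ := (e i - sh ((i + 1) * q) (e i)) - (e (i + 1) - sh (i * q) (e (i + 1)))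
    with hκ
  have hR : 1 ≤ 4 * D := by omega
  obtain ⟨X, Y, hXY, hY⟩ := h3 (2 * D) (4 * D) (i * q) ((i + 1) * q) κ hR hA hB
  have hm : mu κ = - ((i + 1) * q * sig (e i)) + i * q * sig (e (i + 1)) := by
    rw [hκ, (hmu _ _).2.1, (hmu (e i) _).2.1, (hmu (e (i + 1)) _).2.1, hmush, hmush]
    ring
  have hY' : Y.natAbs ≤ 16 * D ^ 3 := by
    refine hY.trans (le_of_eq ?_)
    ring
  have key : ((i : ℤ) + 1) * (sig (e i) + Y) = i * (sig (e (i + 1)) - X) := by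
    have h4 := hm.symm.trans hXY
    apply mul_left_cancel₀ hq
    linear_combination -h4
  have hcop : IsCoprime (i : ℤ) ((i : ℤ) + 1) := ⟨-1, 1, by ring⟩
  have hdvd : (i : ℤ) ∣ sig (e i) + Y :=
    hcop.dvd_of_dvd_mul_left ⟨_, key⟩
  obtain ⟨E, hE⟩ := hdvd
  refine ⟨E, ?_⟩
  have h5 : sig (e i) - i * E = - Y := by rw [← hE]; ring
  rw [h5, Int.natAbs_neg]
  exact hY'

end Pool.Agent.Helper81.CK
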